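import Pool.Agent.H66.IP.TB
import Pool.Agent.H76.IP.ABS

/-!
Row ONC of the board ipf: a game does not see one copy.
-/

set_option autoImplicit false

namespace Pool.Agent.H67.IP

open Finset Pool.Agent.H6.NB Pool.Agent.H66.IP
open Pool.Agent.H70.EH (mv dm Tm T_WLM T_MUV)

theorem onc_avg {X : Type} [Fintype X] (m G H : X → ℝ) (η : ℝ) (hm : ∀ p, 0 ≤ m p)
    (hs : ∑ p, m p = 1) (h : ∀ p, G p ≤ H p ∧ H p ≤ G p + η) :
    ∑ p, m p * G p ≤ ∑ p, m p * H p ∧ ∑ p, m p * H p ≤ ∑ p, m p * G p + η := by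
  constructor
  · exact Finset.sum_le_sum fun p _ => mul_le_mul_of_nonneg_left (h p).1 (hm p)
  · have : ∑ p, m p * H p ≤ ∑ p, (m p * G p + m p * η) :=
      Finset.sum_le_sum fun p _ => by
        have := mul_le_mul_of_nonneg_left (h p).2 (hm p)
        linarith
    rw [Finset.sum_add_distrib, ← Finset.sum_mul, hs, one_mul] at this
    exact this

theorem onc_num (K k B S Δ D : ℝ) (hK1 : 1 ≤ K) (hkK : k ≤ K) (hB : 1 ≤ B)
    (hS : B * B ≤ S) (hD : D ≤ 4000 * B * K / S + 1 / B) (hΔ : Δ ≤ D + k / B) :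
    Δ ≤ 4003 * K / B := by
  have hB0 : 0 < B := by linarith
  have hS0 : 0 < S := lt_of_lt_of_le (mul_pos hB0 hB0) hS
  have h1 : 4000 * B * K / S ≤ 4000 * K / B := by
    rw [div_le_div_iff₀ hS0 hB0]
    nlinarith [mul_nonneg (by linarith : (0 : ℝ) ≤ 4000 * K) (by linarith : (0 : ℝ) ≤ S - B * B)]
  have h2 : 1 / B ≤ K / B := div_le_div_of_nonneg_right hK1 hB0.le
  have h3 : k / B ≤ K / B := div_le_div_of_nonneg_right hkK hB0.le
  have h4 : 0 ≤ K / B := div_nonneg (by linarith) hB0.le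
  have h5 : 4003 * K / B = 4003 * (K / B) := by ring
  have h6 : 4000 * K / B = 4000 * (K / B) := by ring
  rw [h5]
  rw [h6] at h1
  linarith

theorem pf_ONC (hEVS : T_EVS) (hRTR : T_RTR) (hGL2 : T_GL2) (hABS : Pool.Agent.H76.IP.T_ABS)
    (hMUV : T_MUV) : T_ONC := by
  intro q k d w t hq hk hw hcc hdp hwd
  have hB1 : (1 : ℝ) ≤ 2 ^ (q / 4) := one_le_pow₀ (by norm_num)
  have hB0 : (0 : ℝ) < 2 ^ (q / 4) := by linarith
  obtain ⟨β, hβ⟩ : ∃ β : ℝ, β = 2 ^ (q / 4) := ⟨_, rfl⟩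
  rw [← hβ] at hB1 hB0
  have hF : ∀ y, 0 ≤ t.sv β y ∧ t.sv β y ≤ t.ev y ∧ t.ev y ≤ 1 ∧ t.ev y ≤ t.sv β y + t.cc / β :=
    fun y => hEVS (VV q) β t y hB0
  have hL : ∀ ρ, L12 (rst ρ (t.sv β)) ≤ 4000 * β * (k : ℝ) ^ 2 * (d + 1) * (w : ℝ) ^ 2 := by
    intro ρ
    obtain ⟨t', h1, h2, h3, -, h5⟩ := hRTR (VV q) t ρ
    have e : rst ρ (t.sv β) = t'.sv β := funext fun y => (h5 β y).symm
    rw [e]
    exact hGL2 (VV q) β k d w t' hB1 hk (h1.trans hcc) (h2.trans hdp) (h3.trans hwd)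
  have hA := hABS q (t.sv β) _ hq hL fun y => abs_le.2
    ⟨by linarith [(hF y).1], by linarith [(hF y).2.1, (hF y).2.2.1]⟩
  obtain ⟨m1, s1, -⟩ := hMUV true q
  obtain ⟨m0, s0, -⟩ := hMUV false q
  have hkc : (t.cc : ℝ) / β ≤ k / β :=
    div_le_div_of_nonneg_right (by exact_mod_cast hcc) hB0.le
  have hb : ∀ p, t.sv β p ≤ t.ev p ∧ t.ev p ≤ t.sv β p + k / β := fun p =>
    ⟨(hF p).2.1, by linarith [(hF p).2.2.2]⟩
  obtain ⟨a1, a2⟩ := onc_avg (mv true q) (t.sv β) t.ev (k / β) m1 s1 hb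
  obtain ⟨b1, b2⟩ := onc_avg (mv false q) (t.sv β) t.ev (k / β) m0 s0 hb
  have hsub : ∑ p, (mv true q p - mv false q p) * t.sv β p =
      ∑ p, mv true q p * t.sv β p - ∑ p, mv false q p * t.sv β p := by
    rw [← Finset.sum_sub_distrib]
    exact Finset.sum_congr rfl fun p _ => by ring
  rw [hsub] at hA
  have hΔ : |∑ p, mv true q p * t.ev p - ∑ p, mv false q p * t.ev p| ≤
      |∑ p, mv true q p * t.sv β p - ∑ p, mv false q p * t.sv β p| + k / β := by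
    have c1 := le_abs_self (∑ p, mv true q p * t.sv β p - ∑ p, mv false q p * t.sv β p)
    have c2 := neg_abs_le (∑ p, mv true q p * t.sv β p - ∑ p, mv false q p * t.sv β p)
    rw [abs_le]
    constructor <;> linarith
  have hsq : β * β ≤ √(2 ^ q) := by
    apply Real.le_sqrt_of_sq_le
    rw [hβ, ← pow_add, ← pow_mul]
    exact pow_le_pow_right₀ (by norm_num) (by omega)
  have hlast : (1 : ℝ) / 2 ^ 2 ^ (q - 2) ≤ 1 / β := by
    rw [hβ]
    apply one_div_le_one_div_of_le (by positivity)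
    apply pow_le_pow_right₀ (by norm_num)
    have : q - 2 < 2 ^ (q - 2) := Nat.lt_two_pow_self
    omega
  have hk' : (1 : ℝ) ≤ k := by exact_mod_cast hk
  have hw' : (1 : ℝ) ≤ w := by exact_mod_cast hw
  have hd' : (1 : ℝ) ≤ (d : ℝ) + 1 := by
    have : (0 : ℝ) ≤ d := Nat.cast_nonneg d
    linarith
  have hkk : (k : ℝ) ≤ k ^ 2 := by nlinarith
  have hww : (1 : ℝ) ≤ (w : ℝ) ^ 2 := by nlinarith
  have hdw : (1 : ℝ) ≤ ((d : ℝ) + 1) * (w : ℝ) ^ 2 := by nlinarith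
  have hK : (k : ℝ) ^ 2 * 1 ≤ (k : ℝ) ^ 2 * (((d : ℝ) + 1) * (w : ℝ) ^ 2) :=
    mul_le_mul_of_nonneg_left hdw (by positivity)
  have hkK : (k : ℝ) ≤ (k : ℝ) ^ 2 * (((d : ℝ) + 1) * (w : ℝ) ^ 2) := by linarith
  have hfin := onc_num ((k : ℝ) ^ 2 * (((d : ℝ) + 1) * (w : ℝ) ^ 2)) k β (√(2 ^ q))
    (|∑ p, mv true q p * t.ev p - ∑ p, mv false q p * t.ev p|)
    (|∑ p, mv true q p * t.sv β p - ∑ p, mv false q p * t.sv β p|)
    (by linarith) hkK hB1 hsq ?_ hΔ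
  · refine hfin.trans (le_of_eq ?_)
    rw [hβ]
    ring
  · refine hA.trans ?_
    have e : 4000 * β * (k : ℝ) ^ 2 * (d + 1) * (w : ℝ) ^ 2 / √(2 ^ q) =
      4000 * β * ((k : ℝ) ^ 2 * (((d : ℝ) + 1) * (w : ℝ) ^ 2)) / √(2 ^ q) := by ring
    rw [e]
    linarith

end Pool.Agent.H67.IP
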